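import Mathlib

/-! # Generalized `m`-ary partition recurrences avoiding a divisor -/

set_option autoImplicit false

namespace Pool.Agent.Results.MP_3fd052_nt.NeverDivisible

/-- `K = (k_n)` is a sequence of integers with `0 = k_0 < k_1 < k_2 < ⋯`. -/
structure IsGrid (k : ℕ → ℕ) : Prop where
  zero : k 0 = 0
  strictMono : StrictMono k

/-- The lower degree of `K`: the infimum, in `{0, 1, 2, …, +∞}`, of the positive integers `d` such
that `k_n - k_{n-1} = d` for infinitely many `n ≥ 1` (and `+∞` if there is no such `d`). -/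
noncomputable def lowerDeg (k : ℕ → ℕ) : ℕ∞ :=
  sInf ((fun d : ℕ => (d : ℕ∞)) '' {d : ℕ | 1 ≤ d ∧ {n : ℕ | 1 ≤ n ∧ k n = k (n - 1) + d}.Infinite})

/-- `b` is a `K`-sequence: (a) `b` is constant on each block `k_n, k_n + 1, …, k_{n+1} - 1`, and
(b) `b(k_n) - b(k_{n-1}) = b(n)` for all `n ≥ 1`. -/
structure IsKSeq (k : ℕ → ℕ) (b : ℕ → ℤ) : Prop where
  block : ∀ n m : ℕ, k n ≤ m → m < k (n + 1) → b m = b (k n)
  diff : ∀ n : ℕ, 1 ≤ n → b (k n) - b (k (n - 1)) = b n

/-! ### The choice of the length of the next block -/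

section
variable {p : ℕ} [hp : Fact p.Prime]

theorem choose_len {D : ℕ} (hD : 1 ≤ D) (hpD : 4 * D ≤ p) (c δ δ' : ZMod p) (hδ : δ ≠ 0)
    (hδ' : δ' ≠ 0) (hne : δ' ≠ δ) (r : ℕ) (hr1 : 2 * D ≤ r) (_hr2 : r < p)
    (hr : c + r * δ = 0) :
    ∃ d : ℕ, D ≤ d ∧ d < r ∧ ∃ r' : ℕ, 2 * D ≤ r' ∧ r' < p ∧ (c + d * δ) + r' * δ' = 0 := by
  set ρ : ZMod p := δ / δ' with hρ
  have hρ0 : ρ ≠ 0 := div_ne_zero hδ hδ'
  have hρ1 : ρ ≠ 1 := by
    intro h
    rw [hρ, div_eq_one_iff_eq hδ'] at h
    exact hne h.symm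
  have hρδ : ρ * δ' = δ := by rw [hρ]; field_simp
  have : NeZero p := ⟨hp.out.ne_zero⟩
  set t := ρ.val with ht
  have htp : t < p := ZMod.val_lt ρ
  have htρ : (t : ZMod p) = ρ := ZMod.natCast_zmod_val ρ
  have ht0 : t ≠ 0 := by
    intro h
    apply hρ0
    rw [← htρ, h]; simp
  have ht1 : t ≠ 1 := by
    intro h
    apply hρ1
    rw [← htρ, h]; simp
  -- it suffices to find `s`
  have main : ∃ s : ℕ, 1 ≤ s ∧ s ≤ D ∧ 2 * D ≤ s * t ∧ s * t < p := by
    by_cases h : 2 * D ≤ t
    · exact ⟨1, le_refl _, hD, by omega, by omega⟩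
    · refine ⟨(2 * D + t - 1) / t, ?_, ?_, ?_, ?_⟩
      · rw [Nat.le_div_iff_mul_le (by omega)]; omega
      · rw [← Nat.lt_succ_iff, Nat.div_lt_iff_lt_mul (by omega)]
        have : D * 2 ≤ D * t := Nat.mul_le_mul_left D (by omega)
        calc 2 * D + t - 1 < D * t + t := by omega
          _ = (D + 1) * t := by ring
      · have h1 := Nat.div_add_mod (2 * D + t - 1) t
        have h2 := Nat.mod_lt (2 * D + t - 1) (show 0 < t by omega)
        have h3 : t * ((2 * D + t - 1) / t) = (2 * D + t - 1) / t * t := mul_comm _ _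
        omega
      · have h1 := Nat.div_mul_le_self (2 * D + t - 1) t
        omega
  obtain ⟨s, hs1, hs2, hs3, hs4⟩ := main
  refine ⟨r - s, by omega, by omega, s * t, hs3, hs4, ?_⟩
  rw [Nat.cast_sub (by omega)]
  push_cast
  rw [htρ]
  linear_combination hr + (s : ZMod p) * hρδ

end

/-! ### The construction -/

/-- a stage of the construction: the start `k` of the next block and the values found so far -/
structure St where
  k : ℕ
  f : ℕ → ℕ

/-- append a block of length `d` along which the values increase by `f i` -/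
def next (i : ℕ) (s : St) (d : ℕ) : St :=
  ⟨s.k + d, fun n => if n < s.k then s.f n else s.f (s.k - 1) + (n + 1 - s.k) * s.f i⟩

/-- the properties kept during the construction -/
structure Inv (p D i : ℕ) (s : St) : Prop where
  lt : i + 1 < s.k
  ne0 : ∀ n < s.k, ((s.f n : ℕ) : ZMod p) ≠ 0
  ne : ∀ n, n + 1 < s.k → ((s.f (n + 1) : ℕ) : ZMod p) ≠ ((s.f n : ℕ) : ZMod p)
  ex : ∃ r : ℕ, 2 * D ≤ r ∧ r < p ∧ ((s.f (s.k - 1) : ℕ) : ZMod p) + r * ((s.f i : ℕ) : ZMod p) = 0

theorem inv_step {p D : ℕ} [hp : Fact p.Prime] (hD : 1 ≤ D) (hpD : 4 * D ≤ p) {i : ℕ} {s : St}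
    (h : Inv p D i s) : ∃ d : ℕ, D ≤ d ∧ Inv p D (i + 1) (next i s d) := by
  obtain ⟨r, hr1, hr2, hr⟩ := h.ex
  obtain ⟨d, hd1, hd2, r', hr1', hr2', hr'⟩ := choose_len hD hpD _ _ ((s.f (i + 1) : ℕ) : ZMod p)
    (h.ne0 i (by have := h.lt; omega)) (h.ne0 (i + 1) h.lt) (h.ne i h.lt) r hr1 hr2 hr
  have hk : 0 < s.k := by have := h.lt; omega
  have hold : ∀ n, n < s.k → (next i s d).f n = s.f n := by
    intro n hn
    simp [next, hn]
  have hnew : ∀ j, (next i s d).f (s.k + j) = s.f (s.k - 1) + (j + 1) * s.f i := by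
    intro j
    have : ¬ (s.k + j < s.k) := by omega
    simp only [next, this, if_false]
    congr 2
    omega
  have hkk : (next i s d).k = s.k + d := rfl
  have hnz : ∀ j, 1 ≤ j → j ≤ d →
      ((s.f (s.k - 1) : ℕ) : ZMod p) + (j : ZMod p) * ((s.f i : ℕ) : ZMod p) ≠ 0 := by
    intro j hj1 hj2 h0
    have h1 : ((r - j : ℕ) : ZMod p) * ((s.f i : ℕ) : ZMod p) = 0 := by
      rw [Nat.cast_sub (by omega)]
      linear_combination hr - h0
    rcases mul_eq_zero.1 h1 with h2 | h2
    · rw [ZMod.natCast_eq_zero_iff] at h2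
      have := Nat.le_of_dvd (by omega) h2
      omega
    · exact h.ne0 i (by have := h.lt; omega) h2
  refine ⟨d, hd1, ?_, ?_, ?_, r', hr1', hr2', ?_⟩
  · have := h.lt
    rw [hkk]; omega
  · intro n hn
    rw [hkk] at hn
    by_cases hn' : n < s.k
    · rw [hold n hn']; exact h.ne0 n hn'
    · obtain ⟨j, rfl⟩ : ∃ j, n = s.k + j := ⟨n - s.k, by omega⟩
      rw [hnew j]
      have := hnz (j + 1) (by omega) (by omega)
      push_cast at this ⊢
      exact this
  · intro n hn
    rw [hkk] at hn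
    by_cases hn' : n + 1 < s.k
    · rw [hold _ hn', hold n (by omega)]; exact h.ne n hn'
    · have hi0 := h.ne0 i (by have := h.lt; omega)
      by_cases hn'' : n < s.k
      · have e : n + 1 = s.k + 0 := by omega
        rw [e, hnew 0, hold n hn'']
        have e2 : n = s.k - 1 := by omega
        rw [e2]
        push_cast
        intro h0
        apply hi0
        linear_combination h0
      · obtain ⟨j, rfl⟩ : ∃ j, n = s.k + j := ⟨n - s.k, by omega⟩
        rw [show s.k + j + 1 = s.k + (j + 1) by ring, hnew, hnew]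
        push_cast
        intro h0
        apply hi0
        linear_combination h0
  · have e : (next i s d).k - 1 = s.k + (d - 1) := by rw [hkk]; omega
    rw [e, hnew, hold (i + 1) h.lt]
    have e2 : ((d - 1 : ℕ) : ZMod p) + 1 = (d : ZMod p) := by
      rw [Nat.cast_sub (by omega)]; simp
    push_cast
    rw [e2]
    exact hr'

theorem exists_values (D : ℕ) (hD : 1 ≤ D) : ∃ (p : ℕ) (k B : ℕ → ℕ), p.Prime ∧ k 0 = 0 ∧
    (∀ i, k i + D ≤ k (i + 1)) ∧ (∀ n, ¬ p ∣ B n) ∧
    ∀ i n, k i ≤ n → n < k (i + 1) → 1 ≤ n → B n = B (n - 1) + B i := by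
  obtain ⟨p, hpD, hpp⟩ := Nat.exists_infinite_primes (6 * D + 5)
  have : Fact p.Prime := ⟨hpp⟩
  have hodd : p % 2 = 1 := by
    rcases hpp.eq_two_or_odd with h | h
    · omega
    · exact h
  set s0 : St := ⟨2 * D + 1, fun n => n + 1⟩ with hs0
  have small : ∀ m : ℕ, 0 < m → m < p → ((m : ℕ) : ZMod p) ≠ 0 := by
    intro m h1 h2 h3
    rw [ZMod.natCast_eq_zero_iff] at h3
    have := Nat.le_of_dvd h1 h3
    omega
  have h0 : Inv p D 1 s0 := by
    refine ⟨?_, ?_, ?_, (p - (2 * D + 1)) / 2, ?_, ?_, ?_⟩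
    · show 1 + 1 < 2 * D + 1
      omega
    · intro n hn
      exact small (n + 1) (by omega) (by simp only [hs0] at hn; omega)
    · intro n _ h
      have : ((1 : ℕ) : ZMod p) = 0 := by
        simp only [hs0] at h
        push_cast at h ⊢
        linear_combination h
      exact small 1 (by omega) hpp.one_lt this
    · omega
    · omega
    · have e : (2 * D + 1) + (p - (2 * D + 1)) / 2 * 2 = p := by omega
      have e' : (((2 * D + 1) + (p - (2 * D + 1)) / 2 * 2 : ℕ) : ZMod p) = 0 := by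
        rw [e]; simp
      simp only [hs0]
      have e3 : 2 * D + 1 - 1 + 1 = 2 * D + 1 := by omega
      rw [e3]
      push_cast at e' ⊢
      linear_combination e'
  -- the sequence of stages
  have hstep : ∀ (i : ℕ) (s : {s : St // Inv p D (i + 1) s}), ∃ d : ℕ, D ≤ d ∧
      Inv p D (i + 1 + 1) (next (i + 1) s.1 d) := fun i s => inv_step hD (by omega) s.2
  choose len hlen1 hlen2 using hstep
  let S : ∀ i : ℕ, {s : St // Inv p D (i + 1) s} := fun i =>
    Nat.rec (motive := fun i => {s : St // Inv p D (i + 1) s}) ⟨s0, h0⟩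
      (fun i s => ⟨next (i + 1) s.1 (len i s), hlen2 i s⟩) i
  have hS0 : (S 0).1 = s0 := rfl
  have hSs : ∀ i, (S (i + 1)).1 = next (i + 1) (S i).1 (len i (S i)) := fun i => rfl
  have hkS : ∀ i, (S (i + 1)).1.k = (S i).1.k + len i (S i) := fun i => by rw [hSs]; rfl
  set k : ℕ → ℕ := fun i => match i with
    | 0 => 0
    | i + 1 => (S i).1.k with hk
  have hk0 : k 0 = 0 := rfl
  have hk1 : ∀ i, k (i + 1) = (S i).1.k := fun i => rfl
  set B : ℕ → ℕ := fun n => (S n).1.f n with hB
  have hmono : ∀ i j, i ≤ j → (S i).1.k ≤ (S j).1.k := by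
    intro i j hij
    induction hij with
    | refl => exact le_refl _
    | step _ ih => rw [hkS]; omega
  have hcons : ∀ i j n, i ≤ j → n < (S i).1.k → (S j).1.f n = (S i).1.f n := by
    intro i j n hij hn
    induction hij with
    | refl => rfl
    | @step m hm ih =>
      rw [hSs, ← ih]
      have : n < (S m).1.k := lt_of_lt_of_le hn (hmono i m hm)
      simp [next, this]
  have hlt : ∀ n, n < (S n).1.k := fun n => by have := (S n).2.lt; omega
  have hBS : ∀ i n, n < (S i).1.k → (S i).1.f n = B n := by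
    intro i n hn
    rcases le_total i n with h | h
    · exact (hcons i n n h hn).symm
    · exact hcons n i n h (hlt n)
  refine ⟨p, k, B, hpp, hk0, ?_, ?_, ?_⟩
  · intro i
    cases i with
    | zero =>
      have e1 : k (0 + 1) = 2 * D + 1 := rfl
      have e2 : k 0 = 0 := rfl
      omega
    | succ i =>
      rw [hk1, hk1, hkS]
      have := hlen1 i (S i)
      omega
  · intro n hn
    have := (S n).2.ne0 n (hlt n)
    rw [Ne, ZMod.natCast_eq_zero_iff] at this
    exact this hn
  · intro i n h1 h2 h3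
    cases i with
    | zero =>
      have h2' : n < (S 0).1.k := h2
      have e0 : ∀ m, m < (S 0).1.k → B m = m + 1 := by
        intro m hm
        rw [← hBS 0 m hm, hS0]
      have a1 := e0 n h2'
      have a2 := e0 (n - 1) (by omega)
      have a3 := e0 0 (by omega)
      rw [a1, a2, a3]
      omega
    | succ i =>
      rw [hk1] at h1 h2
      have h2' : n < (S (i + 1)).1.k := h2
      rw [← hBS (i + 1) n h2', ← hBS (i + 1) (n - 1) (by omega)]
      have hi1 : i + 1 < (S i).1.k := by have := (S i).2.lt; omega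
      rw [← hBS i (i + 1) hi1, hSs]
      obtain ⟨j, rfl⟩ : ∃ j, n = (S i).1.k + j := ⟨n - (S i).1.k, by omega⟩
      have hn1 : ¬ ((S i).1.k + j < (S i).1.k) := by omega
      simp only [next, hn1, if_false]
      have e1 : (S i).1.k + j + 1 - (S i).1.k = j + 1 := by omega
      rw [e1]
      cases j with
      | zero =>
        have : (S i).1.k + 0 - 1 < (S i).1.k := by omega
        simp only [this, if_true]
        simp
      | succ j =>
        have : ¬ ((S i).1.k + (j + 1) - 1 < (S i).1.k) := by omega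
        simp only [this, if_false]
        have e2 : (S i).1.k + (j + 1) - 1 + 1 - (S i).1.k = j + 1 := by omega
        rw [e2]
        ring

/-- For every `D` there are a sequence `K` of lower degree at least `D`, a `K`-sequence `b` and a
positive integer `h` such that no value of `b` is divisible by `h`.  For `D = 3` this answers the
question in the negative. -/
theorem result : ∀ D : ℕ, ∃ (k : ℕ → ℕ) (b : ℕ → ℤ) (h : ℕ),
    IsGrid k ∧ (D : ℕ∞) ≤ lowerDeg k ∧ IsKSeq k b ∧ 0 < h ∧ ∀ n : ℕ, ¬ (h : ℤ) ∣ b n := by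
  intro D
  obtain ⟨p, k, B, hp, hk0, hk, hB, hrec⟩ := exists_values (D + 1) (by omega)
  have hmono : StrictMono k := strictMono_nat_of_lt_succ fun i => by have := hk i; omega
  have hidx : ∀ n, ∃ i, k i ≤ n ∧ n < k (i + 1) := by
    intro n
    have h1 : ∃ i, n < k i := ⟨n + 1, by have := hmono.le_apply (x := n + 1); omega⟩
    classical
    obtain ⟨i, hi, hmin⟩ : ∃ i, n < k i ∧ ∀ j < i, ¬ n < k j :=
      ⟨Nat.find h1, Nat.find_spec h1, fun j hj => Nat.find_min h1 hj⟩
    cases i with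
    | zero => rw [hk0] at hi; omega
    | succ i => exact ⟨i, not_lt.1 (hmin i (by omega)), hi⟩
  choose idx h1 h2 using hidx
  have huniq : ∀ n i, k i ≤ n → n < k (i + 1) → idx n = i := by
    intro n i ha hb
    have e1 : k i < k (idx n + 1) := lt_of_le_of_lt ha (h2 n)
    have e2 : k (idx n) < k (i + 1) := lt_of_le_of_lt (h1 n) hb
    rw [hmono.lt_iff_lt] at e1 e2
    omega
  have hidxk : ∀ n, idx (k n) = n := fun n => huniq _ _ le_rfl (hmono (Nat.lt_succ_self n))
  refine ⟨k, fun n => (B (idx n) : ℤ), p, ⟨hk0, hmono⟩, ?_, ⟨?_, ?_⟩, hp.pos, ?_⟩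
  · unfold lowerDeg
    apply le_sInf
    rintro _ ⟨d, ⟨_, hinf⟩, rfl⟩
    obtain ⟨n, hn1, hn2⟩ := hinf.nonempty
    obtain ⟨m, rfl⟩ : ∃ m, n = m + 1 := ⟨n - 1, by omega⟩
    have := hk m
    rw [Nat.add_sub_cancel] at hn2
    show (D : ℕ∞) ≤ (d : ℕ∞)
    exact_mod_cast (by omega : D ≤ d)
  · intro n m ha hb
    show (B (idx m) : ℤ) = B (idx (k n))
    rw [huniq m n ha hb, hidxk]
  · intro n hn
    show (B (idx (k n)) : ℤ) - B (idx (k (n - 1))) = B (idx n)
    rw [hidxk, hidxk, hrec (idx n) n (h1 n) (h2 n) hn]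
    push_cast
    ring
  · intro n hn
    have hn' : (p : ℤ) ∣ (B (idx n) : ℤ) := hn
    exact hB (idx n) (by exact_mod_cast hn')

end Pool.Agent.Results.MP_3fd052_nt.NeverDivisible
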